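import Pool.Agent.R911.Wu.Last

/-!
# Cohomological dimension of the categories with prescribed semisimple graded pieces

`C` is an abelian category with weights and a dimension function, for instance the category
`𝒞_{k,ℓ}` of mixed representations of the absolute Galois group of the number field `k` which are
potentially semistable at the places above `ℓ`. For each `m` let `S_m` be a class of semisimple objects
which are pure of weight `m`, stable under subobjects, quotients and finite products, and let `C_S` be
the full subcategory of the objects of `C` all of whose weight-graded pieces are in these classes. If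
`S_m` consists of all semisimple objects which are pure of weight `m` then `C_S` is the category of
the objects with semisimple weight-graded pieces, which is the category occurring in the known theorem
in positive characteristic; another example is the category of mixed Tate objects. All `Ext` groups are
the Yoneda `Ext` groups of the abelian category in question.

* In `C_S` one has `Ext^n(X, Y) = 0` if the weights of `X` are at most `a`, those of `Y` at least `b`,
  and `a < b + n`.
* If `X` and `Y` are in `C_S`, with the weights of `X` at least `a` and those of `Y` less than `a`, then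
  `Ext^1(X, Y)` is the same in `C_S` and in `C`, and `Ext^2(X, Y)` in `C_S` is contained in
  `Ext^2(X, Y)` in `C`.
* The category `C_S` has cohomological dimension one if and only if `Ext^1(X, Y) ≠ 0` in `C` for
  some irreducible `X` in `S_a` and `Y` in `S_b` with `b < a`, and for all irreducible `X` in `S_a`
  and `Y` in `S_b` with `b ≤ a - 2` and all exact sequences `0 → Y → F → K → 0` with `F` in `C_S`
  and `K` with weights in `[b + 1, a - 1]` each extension of `X` by `K` lifts to one of `X` by `F`.
* If `Ext^2(X, Y) = 0` in `C` for all irreducible `X` in `S_a` and `Y` in `S_b` with `b ≤ a - 2` then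
  the cohomological dimension of `C_S` is at most one. In particular this is so if the cohomological
  dimension of `C` is at most one.
-/

open CategoryTheory Pool.Agent.R911.Wt Pool.Agent.R911.Wu
open Pool.Agent.R388.CD (ExtVanish cohDim)

namespace Pool.Agent.Results.MP_5968e7_ag.GradedPieces

universe v u

theorem result (C : Type u) [Category.{v} C] [Abelian C] (w : Weights C)
    (d : C → ℕ) (hd : IsDimension d) (S : PureClasses w) :
    -- vanishing
    (∀ (n : ℕ) (a b : ℤ) (X Y : S.graded.FullSubcategory), w.le a X.obj → w.ge b Y.obj →
      a < b + n → ExtVanish X Y n) ∧
    -- comparison in degrees one and two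
    (∀ (a : ℤ) (X Y : S.graded.FullSubcategory), w.ge a X.obj → w.le (a - 1) Y.obj →
      ExtBij S.graded X Y 1 ∧ ExtInj S.graded X Y 2) ∧
    -- cohomological dimension one
    (cohDim S.graded.FullSubcategory = 1 ↔
      (∃ (a b : ℤ) (X Y : C), b < a ∧ Simple X ∧ Simple Y ∧ S.cls a X ∧ S.cls b Y ∧
        ¬ ExtVanish X Y 1) ∧
      ∀ (a b : ℤ) (X : C) (T : ShortComplex C), b ≤ a - 2 → Simple X → S.cls a X →
        T.ShortExact → Simple T.X₁ → S.cls b T.X₁ → S.graded T.X₂ →
        w.between (b + 1) (a - 1) T.X₃ → LiftsAlong X T) ∧
    -- vanishing in the whole category
    ((∀ (a b : ℤ) (X Y : C), b ≤ a - 2 → Simple X → Simple Y → S.cls a X → S.cls b Y →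
      ExtVanish X Y 2) → cohDim S.graded.FullSubcategory ≤ 1) ∧
    (cohDim C ≤ 1 → cohDim S.graded.FullSubcategory ≤ 1) :=
  ⟨fun n _ _ _ _ hX hY h => graded_gap S n hX hY h,
    fun _ _ _ hX hY => ⟨graded_one S hX hY, graded_two S hX hY⟩,
    graded_eq_one S hd,
    fun h => cohDim_le_one_iff.2 (graded_of_simple S hd h),
    graded_le_one S⟩

end Pool.Agent.Results.MP_5968e7_ag.GradedPieces
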