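import Pool.Agent.R388.CD.Final

/-!
# The cohomological dimension of mixed potentially semistable representations does not depend on
the number field

`R : RepSystem ℚ_[ℓ] gal` (`Pool/Agent/R388/CD/Final.lean`): for `ℚ` (`R.base`) and for every number
field `k ⊂ Qbar` (`R.cat k`) an abelian category of finite-dimensional `ℓ`-adic representations of
the absolute Galois group `GQ`, `gal k`, stable under subobjects, quotients and finite products,
such that restriction from `ℚ` to `k` and induction from `k` to `ℚ` respect the categories.  The
categories `𝒞_{k,ℓ}` of the problem form such a system.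

`ExtVanish X Y n`: `Ext^n(X, Y) = 0` in the abelian category in question (derived category of that
category itself); `ExtNonzero P n`: it is nonzero for some `X`, `Y` with property `P`;
`ExtZeroOnSimples P n`: it vanishes for all irreducible `X`, `Y`; `dim P`: cohomological dimension.
-/

set_option autoImplicit false

namespace Pool.Agent.Results.MP_5968e7_ag.IndependenceOfNumberField

open CategoryTheory Pool.Agent.R388.CD

theorem result (ℓ : ℕ) [Fact ℓ.Prime] (R : RepSystem ℚ_[ℓ] gal) (k : NF) :
    -- for every `n`: `Ext^n` does not vanish identically in the category for `k` if and only if it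
    -- does not vanish identically in the category for `ℚ`
    (∀ n : ℕ, ExtNonzero (R.cat k) n ↔ ExtNonzero R.base n) ∧
    -- the cohomological dimensions for `k` and `ℚ` are equal
    dim (R.cat k) = dim R.base ∧
    -- the one for `k` is `1` if and only if, over `ℚ`, `Ext^1` is not identically zero and
    -- `Ext^2(X, Y) = 0` for all irreducible `X`, `Y`
    (dim (R.cat k) = 1 ↔ ExtNonzero R.base 1 ∧ ExtZeroOnSimples R.base 2) :=
  ⟨fun n => sys_transfer R k n, sys_cohDim R k, sys_one_iff R k⟩

end Pool.Agent.Results.MP_5968e7_ag.IndependenceOfNumberField
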