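import Pool.Agent.R911.Wu.Sys

/-!
# Semistable instead of potentially semistable representations

`R : RepSystem ℚ_[ℓ] gal` (as in `IndependenceOfNumberField`): for `ℚ` (`R.base`) and for every number
field `k ⊂ Qbar` (`R.cat k`) an abelian category of finite-dimensional `ℓ`-adic representations of
the absolute Galois group `GQ`, `gal k`, stable under subobjects, quotients and finite products, such
that restriction from `ℚ` to `k` and induction from `k` to `ℚ` respect the categories. The categories
`𝒞_{k,ℓ}` of the problem form such a system.

`s : Semistable R`: for every `k` a class `s.st k` of objects of `R.cat k`, stable under subobjects,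
quotients, finite products and those extensions which belong to `R.cat k`. `s.Reached 𝓘`: the
restriction of each object of the category for `ℚ` to some number field `k` in the set `𝓘` belongs to
`s.st k`. Examples: the mixed representations which are semistable (not only potentially semistable)
at all places of `k` above `ℓ`, or at all places of `k`; those all of whose irreducible constituents
remain irreducible over all finite extensions of `k` and have connected algebraic monodromy groups;
those with both properties. Here `𝓘` is the set of all number fields or a cofinal one.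

* For `X` and `Y` in `s.st k`, `Ext^1(X, Y)` is the same in the category `s.st k` and in `R.cat k`, and
  `Ext^2(X, Y)` in `s.st k` is contained in `Ext^2(X, Y)` in `R.cat k`.
* If `Ext^n` vanishes identically in `s.st k` for all `k` in `𝓘` then it vanishes identically in
  `R.cat k` for all number fields `k`. The cohomological dimension of `R.cat k` is at most the
  supremum of those of the categories `s.st i` for `i` in `𝓘`.
* For each number field `k`, the cohomological dimension of `R.cat k` is one if and only if the
  supremum of the cohomological dimensions of the categories `s.st i` for `i` in `𝓘` is one, if and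
  only if `Ext^1` is not identically zero in `s.st i` for some `i` in `𝓘` and `Ext^2(X, Y) = 0` in
  `s.st i` for all `i` in `𝓘` and all irreducible `X` and `Y` in `s.st i`.
-/

set_option autoImplicit false

namespace Pool.Agent.Results.MP_5968e7_ag.SemistableSuffices

open CategoryTheory Pool.Agent.R388.CD Pool.Agent.R911.Wu

theorem result (ℓ : ℕ) [Fact ℓ.Prime] (R : RepSystem ℚ_[ℓ] gal) (s : Semistable R) (𝓘 : Set NF)
    (hs : s.Reached 𝓘) :
    -- comparison of `Ext^1` and `Ext^2`
    (∀ (k : NF) (X Y : (s.st k).FullSubcategory),
      ExtBijIncl (s.st k) (R.cat k) (s.st_le k) X Y 1 ∧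
      ExtInjIncl (s.st k) (R.cat k) (s.st_le k) X Y 2) ∧
    -- vanishing of `Ext^n`
    (∀ n : ℕ, (∀ i ∈ 𝓘, ¬ ExtNonzero (s.st i) n) → ∀ k : NF, ¬ ExtNonzero (R.cat k) n) ∧
    -- cohomological dimensions
    (∀ k : NF, dim (R.cat k) ≤ ⨆ i ∈ 𝓘, dim (s.st i)) ∧
    -- cohomological dimension one
    (∀ k : NF, dim (R.cat k) = 1 ↔ ⨆ i ∈ 𝓘, dim (s.st i) = 1) ∧
    (∀ k : NF, dim (R.cat k) = 1 ↔
      (∃ i ∈ 𝓘, ExtNonzero (s.st i) 1) ∧ ∀ i ∈ 𝓘, ExtZeroOnSimples (s.st i) 2) :=
  ⟨fun k X Y => ⟨incl_bij (s.st k) (R.cat k) (s.st_le k) (s.st_ext k) X Y,
      incl_inj (s.st k) (R.cat k) (s.st_le k) (s.st_ext k) X Y le_rfl⟩,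
    fun n h k hk => sys_vanish s hs h ((sys_transfer R k n).1 hk),
    fun k => by rw [sys_cohDim R k]; exact sys_dim_le s hs,
    fun k => by rw [sys_cohDim R k]; exact sys_one_dim s hs,
    fun k => by rw [sys_cohDim R k]; exact sys_one_simples s hs⟩

end Pool.Agent.Results.MP_5968e7_ag.SemistableSuffices
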