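import Pool.Agent.R911.Wt.Last

/-!
# Weights and cohomological dimension

`C` is an abelian rigid tensor category with weights and a dimension function, for instance the
category `𝒞_{k,ℓ}` of mixed representations of the absolute Galois group of the number field `k` which
are potentially semistable at the places above `ℓ`. All `Ext` groups are the Yoneda `Ext` groups of the
abelian category in question; `C` need not have injective or projective objects.

* `Ext^n(X, Y) = 0` for all `n` if the weights of `X` are smaller than those of `Y`.
* If `X` and `Y` have weights in `[b, a]` then `Ext^n(X, Y)` is the same in `C` and in the category of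
  the objects with weights in `[b, a]`. For `a = b` this is the category of pure objects.
* `Ext^n` vanishes on `C` if and only if `Ext^n(1, Y) = 0`, computed in the category of objects with
  weights in `[b, 0]`, for all irreducible pure objects `Y` of weight `b ≤ 0`. In particular, `C` has
  cohomological dimension `1` if and only if `Ext^1` is not identically zero and this holds for
  `n = 2`.
* Assume that pure objects of weight `0` have no nontrivial extensions. Then `Ext^n(X, Y) = 0` if
  the weights of `X` are at most `a`, those of `Y` at least `b`, and `a < b + n`. Moreover `C` has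
  cohomological dimension `1` if and only if `Ext^1` is not identically zero and for all exact sequences
  `0 → Y → F → K → 0` such that `Y` is irreducible and pure of weight `b ≤ -2` and the weights of `K`
  are in `[b + 1, -1]`, each extension of `1` by `K` lifts to an extension of `1` by `F`.
-/

open CategoryTheory Limits MonoidalCategory Pool.Agent.R911.Wt
open Pool.Agent.R388.CD (ExtVanish cohDim)

namespace Pool.Agent.Results.MP_5968e7_ag.WeightDrop

universe v u

theorem result (C : Type u) [Category.{v} C] [Abelian C] [MonoidalCategory C]
    [MonoidalPreadditive C] [RigidCategory C] (w : Weights C) (hw : w.Compatible)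
    (d : C → ℕ) (hd : IsDimension d) :
    -- increasing weights
    (∀ (m : ℤ) (X Y : C), w.le m X → w.ge (m + 1) Y → ∀ n : ℕ, ExtVanish X Y n) ∧
    -- intervals of weights
    (∀ (b a : ℤ) (X Y : (w.between b a).FullSubcategory) (n : ℕ),
      ExtBij (w.between b a) X Y n) ∧
    -- reduction to irreducible objects of nonpositive weight
    (∀ n : ℕ, (∀ X Y : C, ExtVanish X Y n) ↔
      ∀ (b : ℤ) (Y : C), b ≤ 0 → Simple Y → w.Pure b Y → w.UnitExtVanish b Y n) ∧
    -- cohomological dimension one
    (cohDim C = 1 ↔ (∃ X Y : C, ¬ ExtVanish X Y 1) ∧
      ∀ (b : ℤ) (Y : C), b ≤ 0 → Simple Y → w.Pure b Y → w.UnitExtVanish b Y 2) ∧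
    -- semisimple pure objects
    (w.SemisimpleZero →
      (∀ (n : ℕ) (a b : ℤ) (X Y : C), w.le a X → w.ge b Y → a < b + n → ExtVanish X Y n) ∧
      (cohDim C = 1 ↔ (∃ X Y : C, ¬ ExtVanish X Y 1) ∧
        ∀ (b : ℤ) (S : ShortComplex C), b ≤ -2 → S.ShortExact → Simple S.X₁ → w.Pure b S.X₁ →
          w.between (b + 1) (-1) S.X₃ → LiftsAlong (𝟙_ C) S)) :=
  ⟨fun _ _ _ hX hY _ => w.vanish hX hY, fun b a X Y n => extBij w b a X Y n,
    fun n => final_reduction w hw hd n, final_one w hw hd,
    fun hs => ⟨fun n _ _ _ _ hX hY h => gap w hw hs n hX hY h, one_iff_lifts w hw hs hd⟩⟩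

end Pool.Agent.Results.MP_5968e7_ag.WeightDrop
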